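import Mathlib

/-!
# The number of bounded integral vectors in a family of small rank
-/

set_option linter.unusedSectionVars false

namespace Pool.Agent.R936.GHC

/-- **The number of the vectors.** -/
theorem range_le {Λ S : Type*} [Finite S] {w : Λ → S → ℤ} {R B : ℕ} (hB : ∀ l s, |w l s| ≤ B)
    (hR : ∀ s : Fin (R + 1) → Λ, ∃ a : Fin (R + 1) → ℤ, a ≠ 0 ∧ ∑ i, a i • w (s i) = 0) :
    (Set.range w).Finite ∧ (Set.range w).ncard ≤ (2 * B + 1) ^ R := by
  classical
  cases nonempty_fintype S
  let wq : Λ → S → ℚ := fun l s => (w l s : ℚ)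
  set U : Submodule ℚ (S → ℚ) := Submodule.span ℚ (Set.range wq) with hU
  have hUR : Module.finrank ℚ U ≤ R := by
    by_contra hcon
    push Not at hcon
    obtain ⟨f, hf1, -, hf3⟩ := Submodule.exists_fun_fin_finrank_span_eq ℚ (Set.range wq)
    choose g hg using hf1
    obtain ⟨a, ha0, ha⟩ := hR fun i => g (Fin.castLE hcon i)
    have h1 : ∑ i, (a i : ℚ) • f (Fin.castLE hcon i) = 0 := by
      funext s
      have h2 := congrFun ha s
      rw [Finset.sum_apply, Pi.zero_apply] at h2
      rw [Finset.sum_apply, Pi.zero_apply]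
      have h3 : ((∑ i, (a i • w (g (Fin.castLE hcon i))) s : ℤ) : ℚ) = 0 := by
        rw [h2, Int.cast_zero]
      rw [← h3, Int.cast_sum]
      refine Finset.sum_congr rfl fun i _ => ?_
      rw [Pi.smul_apply, Pi.smul_apply, ← hg, smul_eq_mul, smul_eq_mul, Int.cast_mul]
    have h2 := hf3.comp (Fin.castLE hcon) (Fin.castLE_injective hcon)
    have h3 := Fintype.linearIndependent_iff.1 h2 (fun i => (a i : ℚ)) h1
    apply ha0
    funext i
    have h4 := h3 i
    exact_mod_cast h4
  let pr : S → Module.Dual ℚ U := fun s => (LinearMap.proj s : (S → ℚ) →ₗ[ℚ] ℚ).comp U.subtype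
  obtain ⟨f, hf1, hf2, -⟩ := Submodule.exists_fun_fin_finrank_span_eq ℚ (Set.range pr)
  have hr : Module.finrank ℚ (Submodule.span ℚ (Set.range pr)) ≤ R := by
    refine (Submodule.finrank_le _).trans ?_
    rw [Subspace.dual_finrank_eq]
    exact hUR
  choose g hg using hf1
  let F : Set.range w → (Fin (Module.finrank ℚ (Submodule.span ℚ (Set.range pr))) →
      Fin (2 * B + 1)) := fun x i => ⟨((x : S → ℤ) (g i) + B).toNat, by
    obtain ⟨l, hl⟩ := x.2
    have h1 := abs_le.1 (hB l (g i))
    rw [← hl]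
    omega⟩
  have hF : Function.Injective F := by
    rintro ⟨x, l, rfl⟩ ⟨y, l', rfl⟩ hxy
    apply Subtype.ext
    have h1 : ∀ i, w l (g i) = w l' (g i) := by
      intro i
      have h2 := congrArg Fin.val (congrFun hxy i)
      have h3 : (w l (g i) + B).toNat = (w l' (g i) + B).toNat := h2
      have h4 := abs_le.1 (hB l (g i))
      have h5 := abs_le.1 (hB l' (g i))
      omega
    have hmem : wq l - wq l' ∈ U := Submodule.sub_mem _ (Submodule.subset_span ⟨l, rfl⟩)
      (Submodule.subset_span ⟨l', rfl⟩)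
    have h2 : ∀ φ ∈ Submodule.span ℚ (Set.range f), φ (⟨wq l - wq l', hmem⟩ : U) = 0 := by
      intro φ hφ
      induction hφ using Submodule.span_induction with
      | mem φ hφ =>
        obtain ⟨i, rfl⟩ := hφ
        rw [← hg i]
        have h3 : ((w l (g i) : ℤ) : ℚ) - ((w l' (g i) : ℤ) : ℚ) = 0 := by rw [h1, sub_self]
        exact h3
      | zero => rfl
      | add φ ψ _ _ h3 h4 => rw [LinearMap.add_apply, h3, h4, add_zero]
      | smul c φ _ h3 => rw [LinearMap.smul_apply, h3, smul_zero]
    funext s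
    have h3 := h2 (pr s) (by rw [hf2]; exact Submodule.subset_span ⟨s, rfl⟩)
    have h4 : ((w l s : ℤ) : ℚ) - ((w l' s : ℤ) : ℚ) = 0 := h3
    exact_mod_cast sub_eq_zero.1 h4
  have hfin : Finite (Set.range w) := Finite.of_injective F hF
  refine ⟨Set.toFinite _, ?_⟩
  have h1 := Nat.card_le_card_of_injective F hF
  rw [Nat.card_coe_set_eq, Nat.card_fun, Nat.card_eq_fintype_card, Nat.card_eq_fintype_card,
    Fintype.card_fin, Fintype.card_fin] at h1
  exact h1.trans (Nat.pow_le_pow_right (by omega) hr)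

end Pool.Agent.R936.GHC
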