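import Pool.Agent.R940.HPig
import Pool.Agent.R936.Hel.Grp

/-!
# Decomposition of long words in a cone
-/

set_option linter.unusedSectionVars false

namespace Pool.Agent.R936.GHC

open Pool.Agent.R940 (exists_sub_fam)

/-- The sum of the values of `f` on the letters of `M`. -/
def vs {Λ : Type*} (f : Λ → ℤ) (M : Multiset Λ) : ℤ := (M.map f).sum

section

variable {Λ : Type*} {f : Λ → ℤ}

@[simp] lemma vs_zero : vs f 0 = 0 := rfl

lemma vs_cons (a : Λ) (M : Multiset Λ) : vs f (a ::ₘ M) = f a + vs f M := by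
  rw [vs, Multiset.map_cons, Multiset.sum_cons]
  rfl

lemma vs_add (M M' : Multiset Λ) : vs f (M + M') = vs f M + vs f M' := by
  rw [vs, Multiset.map_add, Multiset.sum_add]
  rfl

lemma vs_sub (f g : Λ → ℤ) (M : Multiset Λ) : vs (fun l => f l - g l) M = vs f M - vs g M := by
  induction M using Multiset.induction_on with
  | empty => rfl
  | cons a M ih =>
    rw [vs_cons, vs_cons, vs_cons, ih]
    ring

lemma vs_nonneg (hf : ∀ l, 0 ≤ f l) (M : Multiset Λ) : 0 ≤ vs f M := by
  induction M using Multiset.induction_on with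
  | empty => exact le_rfl
  | cons a M ih =>
    rw [vs_cons]
    exact add_nonneg (hf a) ih

end

/-- The bound for the length of indecomposable words in a cone. -/
def coneBound (t B : ℕ) : ℕ :=
  (t + (2 * B + 1) ^ t) * (2 * ((t + (2 * B + 1) ^ t) * (B + 1)) + 1) ^ (t + (2 * B + 1) ^ t)

/-- **Decomposition of long words in a cone.** -/
theorem exists_sub_cone {Λ S : Type*} {a : S → Λ → ℤ} {t B : ℕ} (hB : ∀ s l, |a s l| ≤ B)
    {M : Multiset Λ} {G : Finset Λ} (hG : G.card ≤ t) (hM : ∀ l ∈ M, l ∈ G)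
    (hpos : ∀ s, 0 ≤ vs (a s) M) (hN : coneBound t B < M.card) :
    ∃ M1 M2 : Multiset Λ, M = M1 + M2 ∧ M1.card < M.card ∧ M2.card < M.card ∧
      ∀ s, 0 ≤ vs (a s) M1 ∧ 0 ≤ vs (a s) M2 := by
  classical
  -- sums over the finite set
  have hsum : ∀ (f : Λ → ℤ) (N : Multiset Λ), (∀ l ∈ N, l ∈ G) →
      ∑ l : G, f l * (N.count (l : Λ) : ℤ) = vs f N := by
    intro f N
    induction N using Multiset.induction_on with
    | empty =>
      intro _
      simp
    | cons x N ih =>
      intro hN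
      rw [vs_cons, ← ih (fun l hl => hN l (Multiset.mem_cons_of_mem hl))]
      have h1 : f x = ∑ l : G, f l * (if (l : Λ) = x then 1 else 0 : ℤ) := by
        rw [Finset.sum_eq_single (⟨x, hN x (Multiset.mem_cons_self x N)⟩ : G)]
        · simp
        · intro l _ hl
          rw [if_neg (fun h => hl (Subtype.ext h)), mul_zero]
        · intro h
          exact absurd (Finset.mem_univ _) h
      rw [h1, ← Finset.sum_add_distrib]
      refine Finset.sum_congr rfl fun l _ => ?_
      rw [Multiset.count_cons]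
      push_cast
      ring
  have hcard : ∀ (N : Multiset Λ), (∀ l ∈ N, l ∈ G) → ∑ l : G, N.count (l : Λ) = N.card := by
    intro N hN
    rw [Finset.sum_coe_sort G (fun l => N.count l)]
    exact Multiset.sum_count_eq_card hN
  -- the functionals
  let val : (G → Fin (2 * B + 1)) → G → ℤ := fun φ l => (φ l : ℤ) - B
  let κ := {φ : G → Fin (2 * B + 1) // 0 ≤ ∑ l, val φ l * (M.count (l : Λ) : ℤ)}
  let sl : κ → ℕ := fun φ => (∑ l, val φ.1 l * (M.count (l : Λ) : ℤ)).toNat
  have hsl : ∀ φ : κ, ((sl φ : ℕ) : ℤ) = ∑ l, val φ.1 l * (M.count (l : Λ) : ℤ) := fun φ =>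
    Int.toNat_of_nonneg φ.2
  let A : κ → (G ⊕ κ) → ℤ := fun φ => Sum.elim (val φ.1) (fun φ' => if φ = φ' then -1 else 0)
  let c : (G ⊕ κ) → ℕ := Sum.elim (fun l => M.count (l : Λ)) sl
  have hval : ∀ φ l, |val φ l| ≤ (B : ℤ) := by
    intro φ l
    have h1 := (φ l).2
    simp only [val]
    rw [abs_le]
    constructor <;> omega
  have hcardκ : Fintype.card (G ⊕ κ) ≤ t + (2 * B + 1) ^ t := by
    rw [Fintype.card_sum, Fintype.card_coe]
    refine Nat.add_le_add hG ((Fintype.card_subtype_le _).trans ?_)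
    rw [Fintype.card_fun, Fintype.card_fin, Fintype.card_coe]
    exact Nat.pow_le_pow_right (by omega) hG
  obtain ⟨m, hm1, hm2, hm3, hm4⟩ := exists_sub_fam (ι := G ⊕ κ) (κ := κ) A
    (b := t + (2 * B + 1) ^ t) (B := B + 1) (R := 0) hcardκ (by
      rintro φ (l | φ')
      · refine (hval φ.1 l).trans ?_
        push_cast
        omega
      · simp only [A, Sum.elim_inr]
        split
        · rw [abs_neg, abs_one]
          push_cast
          omega
        · rw [abs_zero]
          positivity) c (by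
      intro φ
      rw [Fintype.sum_sum_type]
      simp only [A, c, Sum.elim_inl, Sum.elim_inr]
      rw [Finset.sum_eq_single φ]
      · rw [if_pos rfl, hsl]
        simp
      · intro φ' _ h
        rw [if_neg (Ne.symm h), zero_mul]
      · intro h
        exact absurd (Finset.mem_univ _) h) (by
      rw [Fintype.sum_sum_type]
      simp only [c, Sum.elim_inl, Sum.elim_inr]
      rw [hcard M hM, add_zero]
      exact lt_of_lt_of_le hN (Nat.le_add_right _ _))
  have hm5 : ∀ φ : κ, ∑ l, val φ.1 l * (m (Sum.inl l) : ℤ) = (m (Sum.inr φ) : ℤ) := by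
    intro φ
    have h1 := hm4 φ
    rw [Fintype.sum_sum_type] at h1
    simp only [A, Sum.elim_inl, Sum.elim_inr] at h1
    rw [Finset.sum_eq_single (a := φ) (s := (Finset.univ : Finset κ))] at h1
    · rw [if_pos rfl] at h1
      linarith
    · intro φ' _ h
      rw [if_neg (Ne.symm h), zero_mul]
    · intro h
      exact absurd (Finset.mem_univ _) h
  -- the subword
  let M1 : Multiset Λ := ∑ l : G, m (Sum.inl l) • ({(l : Λ)} : Multiset Λ)
  have hc1 : ∀ l : G, M1.count (l : Λ) = m (Sum.inl l) := by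
    intro l
    rw [Multiset.count_sum', Finset.sum_eq_single l]
    · rw [Multiset.count_nsmul, Multiset.count_singleton_self, mul_one]
    · intro l' _ hl'
      rw [Multiset.count_nsmul, Multiset.count_singleton, if_neg (fun h => hl' (Subtype.ext h.symm)),
        mul_zero]
    · intro h
      exact absurd (Finset.mem_univ _) h
  have hG1 : ∀ l ∈ M1, l ∈ G := by
    intro l hl
    obtain ⟨a, _, ha⟩ := Multiset.mem_sum.1 hl
    rw [Multiset.mem_singleton.1 (Multiset.mem_of_mem_nsmul ha)]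
    exact a.2
  have hle : M1 ≤ M := by
    rw [Multiset.le_iff_count]
    intro l
    by_cases hl : l ∈ G
    · exact (hc1 ⟨l, hl⟩).le.trans (hm1 (Sum.inl ⟨l, hl⟩))
    · rw [Multiset.count_eq_zero_of_notMem fun h => hl (hG1 l h)]
      exact Nat.zero_le _
  obtain ⟨M2, hM2⟩ := Multiset.le_iff_exists_add.1 hle
  have hk2 : M1.card + M2.card = M.card := by rw [hM2, Multiset.card_add]
  have hk1 : M1.card = ∑ l, m (Sum.inl l) := by
    rw [← hcard M1 hG1]
    exact Finset.sum_congr rfl fun l _ => hc1 l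
  have h01 : 0 < M1.card := by
    by_contra h0
    have h1 : ∑ l, m (Sum.inl l) = 0 := by omega
    have h2 : ∀ l, m (Sum.inl l) = 0 := fun l => by
      have := (Finset.sum_eq_zero_iff.1 h1) l (Finset.mem_univ l)
      exact this
    have h3 : ∀ φ, m (Sum.inr φ) = 0 := by
      intro φ
      have h4 := hm5 φ
      rw [Finset.sum_eq_zero fun l _ => by rw [h2]; simp] at h4
      exact_mod_cast h4.symm
    rw [Fintype.sum_sum_type, h1, Finset.sum_eq_zero fun φ _ => h3 φ] at hm2
    exact absurd hm2 (by simp)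
  have h02 : 0 < M2.card := by
    by_contra h0
    have h1 : M2 = 0 := Multiset.card_eq_zero.1 (by omega)
    rw [h1, add_zero] at hM2
    have h2 : ∀ l : G, m (Sum.inl l) = M.count (l : Λ) := fun l => by rw [← hc1, hM2]
    have h3 : ∀ φ, m (Sum.inr φ) = sl φ := by
      intro φ
      have h4 := hm5 φ
      simp only [h2] at h4
      rw [← hsl] at h4
      exact_mod_cast h4.symm
    rw [Fintype.sum_sum_type, Fintype.sum_sum_type] at hm3
    simp only [c, Sum.elim_inl, Sum.elim_inr, h2, h3] at hm3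
    exact lt_irrefl _ hm3
  refine ⟨M1, M2, hM2, by omega, by omega, fun s => ?_⟩
  -- the functional of `s`
  have hG2 : ∀ l ∈ M2, l ∈ G := fun l hl => hM l (by rw [hM2]; exact Multiset.mem_add.2 (Or.inr hl))
  let φ : G → Fin (2 * B + 1) := fun l => ⟨(a s l + B).toNat, by
    have h1 := abs_le.1 (hB s l)
    omega⟩
  have hφ : ∀ l, val φ l = a s l := by
    intro l
    have h1 := abs_le.1 (hB s l)
    have h2 : (((φ l : Fin (2 * B + 1)) : ℕ) : ℤ) = a s l + B := Int.toNat_of_nonneg (by omega)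
    simp only [val]
    omega
  have hφM : 0 ≤ ∑ l, val φ l * (M.count (l : Λ) : ℤ) := by
    simp only [hφ]
    rw [hsum (a s) M hM]
    exact hpos s
  have h1 := hm5 ⟨φ, hφM⟩
  have h2 : vs (a s) M1 = (m (Sum.inr ⟨φ, hφM⟩) : ℤ) := by
    rw [← h1, ← hsum (a s) M1 hG1]
    refine Finset.sum_congr rfl fun l _ => ?_
    rw [hc1, ← hφ]
  have h3 : vs (a s) M = (sl ⟨φ, hφM⟩ : ℤ) := by
    rw [hsl, ← hsum (a s) M hM]
    refine Finset.sum_congr rfl fun l _ => ?_
    rw [← hφ]
  have h4 := hm1 (Sum.inr ⟨φ, hφM⟩)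
  have h5 : m (Sum.inr ⟨φ, hφM⟩) ≤ sl ⟨φ, hφM⟩ := h4
  have h6 : vs (a s) M = vs (a s) M1 + vs (a s) M2 := by rw [← vs_add, ← hM2]
  have h7 : (m (Sum.inr ⟨φ, hφM⟩) : ℤ) ≤ (sl ⟨φ, hφM⟩ : ℤ) := by exact_mod_cast h5
  refine ⟨by rw [h2]; positivity, by linarith⟩

end Pool.Agent.R936.GHC
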